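import Mathlib
import Pool.Agent.Lib.MP_b4ba8e_al.Defs

/-!
# MP_b4ba8e_al : compactness of `π(f)` from admissibility
-/

set_option autoImplicit false
open MeasureTheory Topology

namespace Pool.MP_b4ba8e.U

section FinOf

variable {G : Type*} [Group G] [TopologicalSpace G] [IsTopologicalGroup G] [MeasurableSpace G]
    [BorelSpace G] [SecondCountableTopology G] [T2Space G]

/-- Continuity of left translation in `L¹`. -/
theorem fin_translate (K : Subgroup G) (hKo : IsOpen (K : Set G)) (hKc : IsCompact (K : Set G))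
    (μ : Measure G) [μ.IsHaarMeasure] (f : G → ℂ) (hf : Integrable f μ) {ε : ℝ} (hε : 0 < ε) :
    ∃ U ∈ nhds (1 : G), ∀ w ∈ U, ∫ g, ‖f g - f (w⁻¹ * g)‖ ∂μ ≤ ε := by
  have hlc : LocallyCompactSpace G :=
    hKc.locallyCompactSpace_of_mem_nhds_of_group (hKo.mem_nhds (one_mem K))
  have hmem : MemLp f 1 μ := memLp_one_iff_integrable.2 hf
  set F : Lp ℂ 1 μ := hmem.toLp f with hF
  have : Fact ((1 : ENNReal) ≠ ⊤) := ⟨ENNReal.one_ne_top⟩
  have hcont : Continuous fun c : G => (DomMulAct.mk c⁻¹ : Gᵈᵐᵃ) • F := by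
    have h1 : Continuous fun c : G => (DomMulAct.mk c⁻¹ : Gᵈᵐᵃ) :=
      DomMulAct.continuous_mk.comp continuous_inv
    exact h1.smul continuous_const
  have h1 : Filter.Tendsto (fun c : G => dist ((DomMulAct.mk c⁻¹ : Gᵈᵐᵃ) • F) F) (nhds 1)
      (nhds 0) := by
    have h2 := (hcont.tendsto 1).dist (tendsto_const_nhds (x := F) (f := nhds (1 : G)))
    have h3 : (DomMulAct.mk (1 : G)⁻¹ : Gᵈᵐᵃ) • F = F := by
      rw [inv_one]
      exact one_smul _ F
    rw [h3, dist_self] at h2
    exact h2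
  have h4 : ∀ᶠ c in nhds (1 : G), dist ((DomMulAct.mk c⁻¹ : Gᵈᵐᵃ) • F) F < ε :=
    h1.eventually (gt_mem_nhds hε)
  refine ⟨_, h4, fun w hw => ?_⟩
  have hw' : dist ((DomMulAct.mk w⁻¹ : Gᵈᵐᵃ) • F) F < ε := hw
  have hint : Integrable (fun g => f (w⁻¹ * g)) μ := hf.comp_mul_left w⁻¹
  have e1 : (DomMulAct.mk w⁻¹ : Gᵈᵐᵃ) • F =
      (memLp_one_iff_integrable.2 hint).toLp (fun g => f (w⁻¹ * g)) := by
    rw [hF, DomMulAct.mk_smul_toLp]
    rfl
  rw [e1, hF, dist_eq_norm, ← MemLp.toLp_sub] at hw'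
  have e2 := L1.norm_of_fun_eq_integral_norm (f := (fun g => f (w⁻¹ * g)) - f) (hint.sub hf)
  have e3 : ‖((memLp_one_iff_integrable.2 hint).sub hmem).toLp ((fun g => f (w⁻¹ * g)) - f)‖ =
      ∫ g, ‖((fun g => f (w⁻¹ * g)) - f) g‖ ∂μ := e2
  rw [e3] at hw'
  refine le_trans (le_of_eq ?_) hw'.le
  refine integral_congr_ae (Filter.Eventually.of_forall fun g => ?_)
  show ‖f g - f (w⁻¹ * g)‖ = ‖f (w⁻¹ * g) - f g‖
  rw [norm_sub_rev]

variable {H : Type*} [NormedAddCommGroup H] [InnerProductSpace ℂ H] [CompleteSpace H]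

omit [TopologicalSpace G] [IsTopologicalGroup G] [MeasurableSpace G]
    [BorelSpace G] [SecondCountableTopology G] [T2Space G] in
theorem fin_norm (π : G →* unitary (H →L[ℂ] H)) (g : G) (y : H) :
    ‖(π g : H →L[ℂ] H) y‖ = ‖y‖ :=
  ContinuousLinearMap.norm_map_of_mem_unitary (π g).2 y

theorem fin_integrable (μ : Measure G) (π : G →* unitary (H →L[ℂ] H))
    (hcont : ∀ v : H, Continuous (fun g : G => (π g : H →L[ℂ] H) v))
    (f : G → ℂ) (hf : Integrable f μ) (y : H) :
    Integrable (fun g => f g • (π g : H →L[ℂ] H) y) μ := by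
  refine (hf.norm.mul_const ‖y‖).mono' (hf.1.smul (hcont y).aestronglyMeasurable)
    (Filter.Eventually.of_forall fun g => ?_)
  rw [norm_smul, fin_norm]

/-- The operator `π(f)`. -/
noncomputable def finOp (μ : Measure G) (π : G →* unitary (H →L[ℂ] H))
    (hcont : ∀ v : H, Continuous (fun g : G => (π g : H →L[ℂ] H) v))
    (f : G → ℂ) (hf : Integrable f μ) : H →L[ℂ] H :=
  LinearMap.mkContinuous
    { toFun := fun y => ∫ g, f g • (π g : H →L[ℂ] H) y ∂μ
      map_add' := fun x y => by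
        rw [← integral_add (fin_integrable μ π hcont f hf x) (fin_integrable μ π hcont f hf y)]
        refine integral_congr_ae (Filter.Eventually.of_forall fun g => ?_)
        show f g • (π g : H →L[ℂ] H) (x + y) = _
        rw [map_add, smul_add]
      map_smul' := fun c y => by
        rw [RingHom.id_apply, ← integral_smul]
        refine integral_congr_ae (Filter.Eventually.of_forall fun g => ?_)
        show f g • (π g : H →L[ℂ] H) (c • y) = _
        rw [map_smul, smul_comm] }
    (∫ g, ‖f g‖ ∂μ) (fun y => by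
      show ‖∫ g, f g • (π g : H →L[ℂ] H) y ∂μ‖ ≤ _
      refine (norm_integral_le_integral_norm _).trans (le_of_eq ?_)
      rw [← integral_mul_const]
      refine integral_congr_ae (Filter.Eventually.of_forall fun g => ?_)
      show ‖f g • (π g : H →L[ℂ] H) y‖ = _
      rw [norm_smul, fin_norm])

theorem finOp_apply (μ : Measure G) (π : G →* unitary (H →L[ℂ] H))
    (hcont : ∀ v : H, Continuous (fun g : G => (π g : H →L[ℂ] H) v))
    (f : G → ℂ) (hf : Integrable f μ) (y : H) :
    finOp μ π hcont f hf y = ∫ g, f g • (π g : H →L[ℂ] H) y ∂μ := rfl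

theorem finOp_sub (μ : Measure G) [μ.IsHaarMeasure] (π : G →* unitary (H →L[ℂ] H))
    (hcont : ∀ v : H, Continuous (fun g : G => (π g : H →L[ℂ] H) v))
    (f : G → ℂ) (hf : Integrable f μ) (w : G) (y : H) :
    ‖finOp μ π hcont f hf y - (π w : H →L[ℂ] H) (finOp μ π hcont f hf y)‖ ≤
      (∫ g, ‖f g - f (w⁻¹ * g)‖ ∂μ) * ‖y‖ := by
  have hint : Integrable (fun g => f (w⁻¹ * g)) μ := hf.comp_mul_left w⁻¹
  have h1 : (π w : H →L[ℂ] H) (finOp μ π hcont f hf y) =
      ∫ g, f (w⁻¹ * g) • (π g : H →L[ℂ] H) y ∂μ := by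
    rw [finOp_apply, ← ContinuousLinearMap.integral_comp_comm _ (fin_integrable μ π hcont f hf y),
      ← integral_mul_left_eq_self (fun g => f (w⁻¹ * g) • (π g : H →L[ℂ] H) y) w]
    refine integral_congr_ae (Filter.Eventually.of_forall fun g => ?_)
    show (π w : H →L[ℂ] H) (f g • (π g : H →L[ℂ] H) y) =
      f (w⁻¹ * (w * g)) • (π (w * g) : H →L[ℂ] H) y
    rw [map_smul, inv_mul_cancel_left, map_mul]
    rfl
  rw [h1, finOp_apply, ← integral_sub (fin_integrable μ π hcont f hf y)
    (fin_integrable μ π hcont _ hint y), ← integral_mul_const]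
  refine norm_integral_le_of_norm_le ((hf.sub hint).norm.mul_const _)
    (Filter.Eventually.of_forall fun g => ?_)
  show ‖f g • (π g : H →L[ℂ] H) y - f (w⁻¹ * g) • (π g : H →L[ℂ] H) y‖ ≤
    ‖f g - f (w⁻¹ * g)‖ * ‖y‖
  rw [← sub_smul, norm_smul, fin_norm]

theorem compact_of_admissible_of
    (hP : ∀ (π : G →* unitary (H →L[ℂ] H)) (X : Subgroup G) (η : H),
      P π X η ∈ closure (convexHull ℝ ((fun x : G => (π x : H →L[ℂ] H) η) '' (X : Set G))))
    (K : Subgroup G) (hKo : IsOpen (K : Set G)) (hKc : IsCompact (K : Set G))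
    (μ : Measure G) [μ.IsHaarMeasure]
    (π : G →* unitary (H →L[ℂ] H))
    (hcont : ∀ v : H, Continuous (fun g : G => (π g : H →L[ℂ] H) v))
    (hadm : ∀ U : Set G, U ∈ nhds (1 : G) → ∃ W : Subgroup G, (W : Set G) ⊆ U ∧
      FiniteDimensional ℂ (fixedVec π W))
    (f : G → ℂ) (hf : Integrable f μ) :
      ∃ A : H →L[ℂ] H, IsCompactOperator A ∧
        ∀ x y : H, inner ℂ x (A y) = ∫ g, f g * inner ℂ x ((π g : H →L[ℂ] H) y) ∂μ := by
  refine ⟨finOp μ π hcont f hf, ?_, ?_⟩
  · have hcl := isClosed_setOfPred_isCompactOperator (𝕜₁ := ℂ) (𝕜₂ := ℂ) (σ₁₂ := RingHom.id ℂ)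
      (M₁ := H) (M₂ := H)
    have hmem : finOp μ π hcont f hf ∈ closure {A : H →L[ℂ] H | IsCompactOperator A} := by
      rw [Metric.mem_closure_iff]
      intro ε hε
      obtain ⟨U, hU, hUf⟩ := fin_translate K hKo hKc μ f hf (half_pos hε)
      obtain ⟨W, hWU, hWfin⟩ := hadm U hU
      refine ⟨(P π W).comp (finOp μ π hcont f hf), ?_, ?_⟩
      · have h1 : IsCompactOperator (fixedVec π W).orthogonalProjectionOnto :=
          isCompactOperator_of_locallyCompactSpace_dom _
        have h2 : IsCompactOperator (P π W) :=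
          h1.continuous_comp (g := ((fixedVec π W).subtypeL : fixedVec π W → H))
            (fixedVec π W).subtypeL.continuous
        exact h2.comp_clm (finOp μ π hcont f hf)
      · rw [dist_eq_norm]
        refine lt_of_le_of_lt (ContinuousLinearMap.opNorm_le_bound _ (half_pos hε).le fun y => ?_)
          (half_lt_self hε)
        have h3 : P π W (finOp μ π hcont f hf y) ∈
            Metric.closedBall (finOp μ π hcont f hf y) (ε / 2 * ‖y‖) := by
          refine closure_minimal (convexHull_min ?_ (convex_closedBall _ _))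
            Metric.isClosed_closedBall (hP π W _)
          rintro _ ⟨w, hw, rfl⟩
          rw [Metric.mem_closedBall, dist_comm, dist_eq_norm]
          refine (finOp_sub μ π hcont f hf w y).trans ?_
          exact mul_le_mul_of_nonneg_right (hUf w (hWU hw)) (norm_nonneg _)
        rw [Metric.mem_closedBall, dist_comm, dist_eq_norm] at h3
        exact h3
    exact hcl.closure_subset hmem
  · intro x y
    rw [finOp_apply, ← integral_inner (fin_integrable μ π hcont f hf y)]
    refine integral_congr_ae (Filter.Eventually.of_forall fun g => ?_)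
    show inner ℂ x (f g • (π g : H →L[ℂ] H) y) = _
    rw [inner_smul_right]

end FinOf

end Pool.MP_b4ba8e.U
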