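import Pool.Agent.Lib.MP_b4ba8e_al.Defs

/-!
# MP_b4ba8e_al : topology of closed automorphism groups of locally finite trees (module TOPO)
-/

set_option autoImplicit false
open Topology

namespace Pool.MP_b4ba8e.U

/-- balls in a graph -/
def topoBall {V : Type*} (T : SimpleGraph V) (v : V) : ℕ → Set V
  | 0 => {v}
  | n + 1 => topoBall T v n ∪ ⋃ u ∈ topoBall T v n, T.neighborSet u

theorem topoBall_mono_succ {V : Type*} (T : SimpleGraph V) (v : V) (n : ℕ) :
    topoBall T v n ⊆ topoBall T v (n + 1) := by
  rw [topoBall]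
  exact Set.subset_union_left

theorem topoBall_mono {V : Type*} (T : SimpleGraph V) (v : V) {m n : ℕ} (h : m ≤ n) :
    topoBall T v m ⊆ topoBall T v n := by
  induction n, h using Nat.le_induction with
  | base => exact subset_rfl
  | succ n _ ih => exact ih.trans (topoBall_mono_succ T v n)

theorem self_mem_topoBall {V : Type*} (T : SimpleGraph V) (v : V) (n : ℕ) :
    v ∈ topoBall T v n := by
  apply topoBall_mono T v (Nat.zero_le n)
  rw [topoBall]
  exact Set.mem_singleton v

theorem topoBall_finite {V : Type*} (T : SimpleGraph V)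
    (hfin : ∀ v : V, (T.neighborSet v).Finite) (v : V) (n : ℕ) : (topoBall T v n).Finite := by
  induction n with
  | zero => rw [topoBall]; exact Set.finite_singleton v
  | succ n ih =>
    rw [topoBall]
    exact ih.union (ih.biUnion fun u _ => hfin u)

theorem exists_mem_topoBall {V : Type*} (T : SimpleGraph V) (hT : T.IsTree) (v u : V) :
    ∃ n, u ∈ topoBall T v n := by
  have h : T.Reachable v u := hT.1.preconnected v u
  rw [SimpleGraph.reachable_iff_reflTransGen] at h
  induction h with
  | refl => exact ⟨0, self_mem_topoBall T v 0⟩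
  | @tail b c _ hbc ih =>
    obtain ⟨n, hn⟩ := ih
    refine ⟨n + 1, ?_⟩
    rw [topoBall]
    right
    simp only [Set.mem_iUnion]
    exact ⟨b, hn, hbc⟩

theorem countable_of_tree {V : Type*} (T : SimpleGraph V) (hT : T.IsTree)
    (hfin : ∀ v : V, (T.neighborSet v).Finite) : Countable V := by
  obtain ⟨v⟩ := hT.1.nonempty
  rw [← Set.countable_univ_iff]
  have h : (Set.univ : Set V) = ⋃ n, topoBall T v n := by
    ext u
    simp only [Set.mem_univ, Set.mem_iUnion, true_iff]
    exact exists_mem_topoBall T hT v u
  rw [h]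
  exact Set.countable_iUnion fun n => (topoBall_finite T hfin v n).countable

section

variable {V : Type*} (T : SimpleGraph V) {G : Type*} [Group G] [MulAction G V]

theorem smul_mem_topoBall (hadj : ∀ (g : G) (u v : V), T.Adj (g • u) (g • v) ↔ T.Adj u v)
    {v : V} {g : G} (hg : g • v = v) (n : ℕ) :
    ∀ u ∈ topoBall T v n, g • u ∈ topoBall T v n := by
  induction n with
  | zero =>
    intro u hu
    rw [topoBall, Set.mem_singleton_iff] at hu ⊢
    rw [hu, hg]
  | succ n ih =>
    intro u hu
    rw [topoBall] at hu ⊢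
    rcases hu with hu | hu
    · exact Or.inl (ih u hu)
    · right
      simp only [Set.mem_iUnion] at hu ⊢
      obtain ⟨w, hw, hwu⟩ := hu
      exact ⟨g • w, ih w hw, (hadj g w u).2 hwu⟩

end

/-- Second countability, Hausdorff, compactness of stabilizers. -/
theorem topo {V : Type*} (T : SimpleGraph V) (hT : T.IsTree)
    (hfin : ∀ v : V, (T.neighborSet v).Finite)
    {G : Type*} [Group G] [TopologicalSpace G] [IsTopologicalGroup G] [MulAction G V]
    [FaithfulSMul G V]
    (hadj : ∀ (g : G) (u v : V), T.Adj (g • u) (g • v) ↔ T.Adj u v)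
    (hopen : ∀ v : V, IsOpen {g : G | g • v = v})
    (hbasis : ∀ U : Set G, U ∈ nhds (1 : G) → ∃ F : Finset V, {g : G | ∀ v ∈ F, g • v = v} ⊆ U)
    (hclosed : ∀ σ : T ≃g T, (∀ F : Finset V, ∃ g : G, ∀ v ∈ F, g • v = σ v) →
      ∃ g : G, ∀ v : V, g • v = σ v) :
    SecondCountableTopology G ∧ T2Space G ∧
    (∀ v : V, IsCompact (MulAction.stabilizer G v : Set G)) ∧
    (∀ v : V, ∀ U : Set G, U ∈ nhds (1 : G) → ∃ W : Subgroup G, (W : Set G) ⊆ U ∧
      IsOpen (W : Set G) ∧ W ≤ MulAction.stabilizer G v ∧
      ∀ k ∈ MulAction.stabilizer G v, ∀ w ∈ W, k * w * k⁻¹ ∈ W) := by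
  classical
  have hcount : Countable V := countable_of_tree T hT hfin
  let _ : TopologicalSpace V := ⊥
  have hdisc : DiscreteTopology V := ⟨rfl⟩
  -- neighbourhoods in `G`
  have hnhds : ∀ (g : G) (U : Set G), U ∈ 𝓝 g ↔
      ∃ F : Finset V, {h : G | ∀ v ∈ F, h • v = g • v} ⊆ U := by
    intro g U
    constructor
    · intro hU
      have h1 : (fun x => g * x) ⁻¹' U ∈ 𝓝 (1 : G) := by
        have hc : ContinuousAt (fun x : G => g * x) 1 := (continuous_const_mul g).continuousAt
        apply hc.preimage_mem_nhds
        simpa using hU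
      obtain ⟨F, hF⟩ := hbasis _ h1
      refine ⟨F, fun h hh => ?_⟩
      have h2 : g⁻¹ * h ∈ {g : G | ∀ v ∈ F, g • v = v} := by
        intro v hv
        rw [mul_smul, hh v hv, inv_smul_smul]
      have h3 := hF h2
      simpa using h3
    · rintro ⟨F, hF⟩
      apply Filter.mem_of_superset _ hF
      have h1 : {h : G | ∀ v ∈ F, h • v = g • v} =
          ⋂ v ∈ F, (fun h => g⁻¹ * h) ⁻¹' {h : G | h • v = v} := by
        ext h
        simp only [Set.mem_ofPred_eq, Set.mem_iInter, Set.mem_preimage, mul_smul,
          inv_smul_eq_iff]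
      have h2 : IsOpen {h : G | ∀ v ∈ F, h • v = g • v} := by
        rw [h1]
        apply isOpen_biInter_finset
        intro v _
        exact (hopen v).preimage (continuous_const_mul g⁻¹)
      exact h2.mem_nhds (fun v _ => rfl)
  -- the map to `V → V` is inducing
  have hind : IsInducing (fun (g : G) (v : V) => g • v) := by
    rw [isInducing_iff_nhds]
    intro g
    ext U
    rw [hnhds, Filter.mem_comap]
    constructor
    · rintro ⟨F, hF⟩
      refine ⟨{f | ∀ v ∈ F, f v = g • v}, ?_, ?_⟩
      · rw [nhds_pi, Filter.mem_pi]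
        refine ⟨F, F.finite_toSet, fun v => {g • v}, fun v => by simp, ?_⟩
        intro f hf v hv
        exact hf v hv
      · intro h hh
        exact hF hh
    · rintro ⟨t, ht, hU⟩
      rw [nhds_pi, Filter.mem_pi] at ht
      obtain ⟨I, hI, s, hs, hst⟩ := ht
      refine ⟨hI.toFinset, fun h hh => hU (hst ?_)⟩
      intro v hv
      have h1 : h • v = g • v := hh v (hI.mem_toFinset.2 hv)
      show h • v ∈ s v
      rw [h1]
      exact mem_of_mem_nhds (hs v)
  have hinj : Function.Injective (fun (g : G) (v : V) => g • v) := by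
    intro g h hgh
    exact FaithfulSMul.eq_of_smul_eq_smul (fun v => congrFun hgh v)
  refine ⟨hind.secondCountableTopology, (IsEmbedding.mk hind hinj).t2Space, ?_, ?_⟩
  · -- compactness
    intro v
    rw [hind.isCompact_iff]
    choose N hN using exists_mem_topoBall T hT v
    have hcomp : IsCompact (Set.pi Set.univ (fun u => topoBall T v (N u)) : Set (V → V)) :=
      isCompact_univ_pi fun u => (topoBall_finite T hfin v (N u)).isCompact
    refine hcomp.of_isClosed_subset ?_ ?_
    · rw [← closure_subset_iff_isClosed]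
      intro σ hσ
      -- local approximation
      have happ : ∀ F : Finset V, ∃ k : G, k • v = v ∧ ∀ u ∈ F, k • u = σ u := by
        intro F
        rw [mem_closure_iff_nhds] at hσ
        obtain ⟨f, hf, k, hk, rfl⟩ := hσ {f | ∀ u ∈ F, f u = σ u} (by
          rw [nhds_pi, Filter.mem_pi]
          exact ⟨F, F.finite_toSet, fun u => {σ u}, fun u => by simp, fun f hf u hu => hf u hu⟩)
        exact ⟨k, hk, hf⟩
      have hσinj : Function.Injective σ := by
        intro a b hab
        obtain ⟨k, -, hk⟩ := happ {a, b}
        have h1 := hk a (by simp)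
        have h2 := hk b (by simp)
        rw [← h1, ← h2] at hab
        exact MulAction.injective k hab
      have hσadj : ∀ a b, T.Adj (σ a) (σ b) ↔ T.Adj a b := by
        intro a b
        obtain ⟨k, -, hk⟩ := happ {a, b}
        rw [← hk a (by simp), ← hk b (by simp)]
        exact hadj k a b
      have hσball : ∀ n, Set.MapsTo σ (topoBall T v n) (topoBall T v n) := by
        intro n a ha
        obtain ⟨k, hkv, hk⟩ := happ {a}
        rw [← hk a (by simp)]
        exact smul_mem_topoBall T hadj hkv n a ha
      have hσsurj : Function.Surjective σ := by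
        intro a
        obtain ⟨n, hn⟩ := exists_mem_topoBall T hT v a
        have h1 : σ '' (topoBall T v n) = topoBall T v n :=
          Set.eq_of_subset_of_ncard_le (hσball n).image_subset
            (Set.ncard_image_of_injective _ hσinj).ge (topoBall_finite T hfin v n)
        rw [← h1] at hn
        obtain ⟨b, -, hb⟩ := hn
        exact ⟨b, hb⟩
      let τ : T ≃g T := ⟨Equiv.ofBijective σ ⟨hσinj, hσsurj⟩, by
        intro a b
        exact hσadj a b⟩
      obtain ⟨g, hg⟩ := hclosed τ (fun F => by
        obtain ⟨k, -, hk⟩ := happ F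
        exact ⟨k, hk⟩)
      refine ⟨g, ?_, ?_⟩
      · show g • v = v
        rw [hg v]
        obtain ⟨k, hkv, hk⟩ := happ {v}
        show σ v = v
        rw [← hk v (by simp), hkv]
      · funext u
        exact hg u
    · rintro _ ⟨k, hk, rfl⟩ u _
      exact smul_mem_topoBall T hadj hk _ u (hN u)
  · -- small normal subgroups of the stabilizer
    intro v U hU
    obtain ⟨F, hF⟩ := hbasis U hU
    choose N hN using exists_mem_topoBall T hT v
    have hsub : ∀ u ∈ F, u ∈ topoBall T v (F.sup N) := fun u hu =>
      topoBall_mono T v (Finset.le_sup (f := N) hu) (hN u)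
    refine ⟨fixingSubgroup G (topoBall T v (F.sup N)), ?_, ?_, ?_, ?_⟩
    · intro g hg
      apply hF
      intro u hu
      exact (mem_fixingSubgroup_iff G).1 hg u (hsub u hu)
    · have h1 : (fixingSubgroup G (topoBall T v (F.sup N)) : Set G) =
          ⋂ u ∈ topoBall T v (F.sup N), {g : G | g • u = u} := by
        ext g
        simp only [SetLike.mem_coe, mem_fixingSubgroup_iff, Set.mem_iInter, Set.mem_ofPred_eq]
      rw [h1]
      exact (topoBall_finite T hfin v _).isOpen_biInter (fun u _ => hopen u)
    · intro g hg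
      exact (mem_fixingSubgroup_iff G).1 hg v (self_mem_topoBall T v _)
    · intro k hk w hw
      rw [mem_fixingSubgroup_iff] at hw ⊢
      intro u hu
      have hk' : k⁻¹ • v = v := by
        rw [inv_smul_eq_iff]
        exact (MulAction.mem_stabilizer_iff.1 hk).symm
      rw [mul_smul, mul_smul, hw _ (smul_mem_topoBall T hadj hk' _ u hu), smul_inv_smul]

end Pool.MP_b4ba8e.U
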