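import Pool.Agent.Lib.MP_b4ba8e_al.Defs

/-!
# MP_b4ba8e_al, module TREEA: lines and rays in a tree
-/

set_option autoImplicit false

namespace Pool.MP_b4ba8e.U

/-- A bi-infinite non-backtracking walk. -/
def IsLine {V : Type*} (T : SimpleGraph V) (l : ℤ → V) : Prop :=
  (∀ i, T.Adj (l i) (l (i + 1))) ∧ ∀ i, l (i + 2) ≠ l i

variable {V : Type*} {T : SimpleGraph V}

/-- The neighbour of `u` closer to `v` is unique. -/
theorem treeA_closer_unique (hT : T.IsTree) {v u w w' : V} (h : T.Adj w u) (h' : T.Adj w' u)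
    (hd : T.dist v w + 1 = T.dist v u) (hd' : T.dist v w' + 1 = T.dist v u) : w = w' := by
  obtain ⟨p, hp⟩ := hT.connected.exists_walk_length_eq_dist v w
  obtain ⟨p', hp'⟩ := hT.connected.exists_walk_length_eq_dist v w'
  have hq : (p.concat h).IsPath := SimpleGraph.Walk.isPath_of_length_eq_dist _ (by
    rw [SimpleGraph.Walk.length_concat, hp, hd])
  have hq' : (p'.concat h').IsPath := SimpleGraph.Walk.isPath_of_length_eq_dist _ (by
    rw [SimpleGraph.Walk.length_concat, hp', hd'])
  have e := congrArg Subtype.val ((hT.isAcyclic.subsingleton_path _ _).elim ⟨_, hq⟩ ⟨_, hq'⟩)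
  have e2 := congrArg SimpleGraph.Walk.penultimate e
  simpa using e2

/-- A non-backtracking finite walk in a tree is a geodesic. -/
theorem dist_of_nonbacktracking (hT : T.IsTree) (r : ℕ → V) (N : ℕ)
    (hadj : ∀ n < N, T.Adj (r n) (r (n + 1))) (hnb : ∀ n, n + 1 < N → r (n + 2) ≠ r n) :
    ∀ m ≤ N, T.dist (r 0) (r m) = m := by
  intro m
  induction m using Nat.twoStepInduction with
  | zero => intro _; simp
  | one =>
    intro h
    exact SimpleGraph.dist_eq_one_iff_adj.mpr (hadj 0 (by omega))
  | more m ih0 ih1 =>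
    intro h
    have h0 := ih0 (by omega)
    have h1 := ih1 (by omega)
    have a1 := hadj m (by omega)
    have a2 := hadj (m + 1) (by omega)
    have h3 : T.dist (r 0) (r (m + 1)) = T.dist (r 0) (r (m + 2)) + 1 ∨
        T.dist (r 0) (r (m + 2)) = T.dist (r 0) (r (m + 1)) + 1 :=
      hT.dist_eq_dist_add_one_of_adj (r 0) a2
    rcases h3 with h2 | h2
    · exfalso
      refine hnb m (by omega) (treeA_closer_unique hT (v := r 0) a2.symm a1 ?_ ?_)
      · omega
      · omega
    · omega

theorem IsLine.dist (hT : T.IsTree) {l : ℤ → V} (h : IsLine T l) (i j : ℤ) :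
    (T.dist (l i) (l j) : ℤ) = |i - j| := by
  have key : ∀ i j : ℤ, i ≤ j → (T.dist (l i) (l j) : ℤ) = j - i := by
    intro i j hij
    have h1 := dist_of_nonbacktracking hT (fun n : ℕ => l (i + n)) (j - i).toNat
      (fun n _ => by
        have := h.1 (i + n)
        rw [add_assoc] at this
        push_cast
        exact this)
      (fun n _ => by
        have := h.2 (i + n)
        rw [add_assoc] at this
        push_cast
        exact this) (j - i).toNat le_rfl
    simp only [Nat.cast_zero, add_zero] at h1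
    have e : i + ((j - i).toNat : ℤ) = j := by omega
    rw [e] at h1
    rw [h1]
    omega
  rcases le_total i j with hij | hij
  · rw [key i j hij, abs_of_nonpos (by omega)]
    ring
  · rw [SimpleGraph.dist_comm, key j i hij, abs_of_nonneg (by omega)]

/-- Uniqueness of geodesics. -/
theorem eq_of_dist_eq (hT : T.IsTree) {p q x y : V} (hx : T.dist p x + T.dist x q = T.dist p q)
    (hy : T.dist p y + T.dist y q = T.dist p q) (hxy : T.dist p x = T.dist p y) : x = y := by
  obtain ⟨a, ha⟩ := hT.connected.exists_walk_length_eq_dist p x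
  obtain ⟨b, hb⟩ := hT.connected.exists_walk_length_eq_dist x q
  obtain ⟨c, hc⟩ := hT.connected.exists_walk_length_eq_dist p y
  obtain ⟨d, hd⟩ := hT.connected.exists_walk_length_eq_dist y q
  have h1 : (a.append b).IsPath := SimpleGraph.Walk.isPath_of_length_eq_dist _ (by
    rw [SimpleGraph.Walk.length_append, ha, hb, hx])
  have h2 : (c.append d).IsPath := SimpleGraph.Walk.isPath_of_length_eq_dist _ (by
    rw [SimpleGraph.Walk.length_append, hc, hd, hy])
  have e := congrArg Subtype.val ((hT.isAcyclic.subsingleton_path _ _).elim ⟨_, h1⟩ ⟨_, h2⟩)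
  have e2 := congrArg (fun w : T.Walk p q => w.getVert a.length) e
  simp only [SimpleGraph.Walk.getVert_append] at e2
  rw [if_neg (by omega), if_neg (by omega)] at e2
  have e3 : a.length - c.length = 0 := by omega
  simpa [e3] using e2

/-- A third neighbour. -/
theorem treeA_exists_next (hdeg : ∀ v : V, 3 ≤ (T.neighborSet v).ncard) (a b : V) :
    ∃ c, T.Adj b c ∧ c ≠ a := by
  by_contra hcon
  push Not at hcon
  have h1 : T.neighborSet b ⊆ {a} := fun c hc => hcon c hc
  have h2 := Set.ncard_le_ncard h1 (Set.finite_singleton a)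
  rw [Set.ncard_singleton] at h2
  have := hdeg b
  omega

/-- A non-backtracking ray starting with a given edge. -/
theorem exists_ray (hdeg : ∀ v : V, 3 ≤ (T.neighborSet v).ncard) (v w : V) (hvw : T.Adj v w) :
    ∃ r : ℕ → V, r 0 = v ∧ r 1 = w ∧ (∀ n, T.Adj (r n) (r (n + 1))) ∧
      ∀ n, r (n + 2) ≠ r n := by
  choose nx h1 h2 using treeA_exists_next hdeg
  let st : ℕ → V × V := fun n => Nat.rec (v, w) (fun _ p => (p.2, nx p.1 p.2)) n
  have hst : ∀ n, st (n + 1) = ((st n).2, nx (st n).1 (st n).2) := fun n => rfl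
  refine ⟨fun n => (st n).1, rfl, rfl, ?_, ?_⟩
  · intro n
    show T.Adj (st n).1 (st (n + 1)).1
    rw [hst]
    cases n with
    | zero => exact hvw
    | succ n =>
      rw [hst]
      exact h1 _ _
  · intro n
    exact h2 (st n).1 (st n).2

/-- Gluing two rays from `v` with different first edges to a line. -/
theorem exists_line_of_rays (r s : ℕ → V)
    (hr : (∀ n, T.Adj (r n) (r (n + 1))) ∧ ∀ n, r (n + 2) ≠ r n)
    (hs : (∀ n, T.Adj (s n) (s (n + 1))) ∧ ∀ n, s (n + 2) ≠ s n)
    (h0 : r 0 = s 0) (h1 : r 1 ≠ s 1) :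
    ∃ l : ℤ → V, IsLine T l ∧ (∀ n : ℕ, l n = r n) ∧ (∀ n : ℕ, l (-n) = s n) := by
  let l : ℤ → V := fun i => if 0 ≤ i then r i.toNat else s (-i).toNat
  have lp : ∀ n : ℕ, l n = r n := by
    intro n
    simp [l]
  have lm : ∀ n : ℕ, l (-n) = s n := by
    intro n
    by_cases hn : n = 0
    · subst hn
      simpa [l] using h0
    · have : ¬ (0 : ℤ) ≤ -n := by omega
      simp only [l, if_neg this, neg_neg, Int.toNat_natCast]
  refine ⟨l, ⟨?_, ?_⟩, lp, lm⟩
  · intro i
    by_cases hi : 0 ≤ i
    · obtain ⟨n, rfl⟩ := Int.eq_ofNat_of_zero_le hi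
      have := hr.1 n
      rw [← lp, ← lp] at this
      exact_mod_cast this
    · obtain ⟨n, hn⟩ := Int.eq_ofNat_of_zero_le (show 0 ≤ -i - 1 by omega)
      have e1 : i = -((n + 1 : ℕ) : ℤ) := by push_cast; omega
      have e2 : i + 1 = -(n : ℤ) := by omega
      rw [e2, e1, lm, lm]
      exact (hs.1 n).symm
  · intro i
    by_cases hi : 0 ≤ i
    · obtain ⟨n, rfl⟩ := Int.eq_ofNat_of_zero_le hi
      have := hr.2 n
      rw [← lp, ← lp] at this
      exact_mod_cast this
    · by_cases hi1 : i = -1
      · subst hi1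
        have e1 : (-1 : ℤ) + 2 = ((1 : ℕ) : ℤ) := by norm_num
        have e2 : (-1 : ℤ) = -((1 : ℕ) : ℤ) := by norm_num
        rw [e1, e2, lp, lm]
        exact h1
      · obtain ⟨n, hn⟩ := Int.eq_ofNat_of_zero_le (show 0 ≤ -i - 2 by omega)
        have e1 : i = -((n + 2 : ℕ) : ℤ) := by push_cast; omega
        have e2 : i + 2 = -(n : ℤ) := by omega
        rw [e2, e1, lm, lm]
        exact (hs.2 n).symm

/-- A line through `v` and `x`. -/
theorem exists_line (hT : T.IsTree) (hdeg : ∀ v : V, 3 ≤ (T.neighborSet v).ncard) (v x : V) :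
    ∃ l : ℤ → V, IsLine T l ∧ l 0 = v ∧ l (T.dist v x) = x := by
  -- a ray through `v` and `x`
  obtain ⟨r, hr0, hrx, hr1, hr2⟩ : ∃ r : ℕ → V, r 0 = v ∧ r (T.dist v x) = x ∧
      (∀ n, T.Adj (r n) (r (n + 1))) ∧ ∀ n, r (n + 2) ≠ r n := by
    by_cases hvx : v = x
    · subst hvx
      obtain ⟨w, hw, -⟩ := treeA_exists_next hdeg v v
      obtain ⟨r, h0, -, h1, h2⟩ := exists_ray hdeg v w hw
      exact ⟨r, h0, by simpa using h0, h1, h2⟩
    · obtain ⟨p, hp⟩ := hT.connected.exists_walk_length_eq_dist v x
      have hpath : p.IsPath := SimpleGraph.Walk.isPath_of_length_eq_dist _ hp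
      set d := T.dist v x with hd
      have hd0 : 0 < d := hT.connected.pos_dist_of_ne hvx
      have hadj : T.Adj (p.getVert (d - 1)) x := by
        have := p.adj_getVert_succ (i := d - 1) (by omega)
        rw [Nat.sub_add_cancel hd0, ← hp, p.getVert_length] at this
        rwa [hp] at this
      obtain ⟨r', h0, h1, h2, h3⟩ := exists_ray hdeg _ _ hadj
      let r : ℕ → V := fun n => if n < d then p.getVert n else r' (n + 1 - d)
      have ra : ∀ n, n < d → r n = p.getVert n := fun n hn => if_pos hn
      have rb : ∀ n, d - 1 ≤ n → r n = r' (n + 1 - d) := by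
        intro n hn
        by_cases hnd : n < d
        · have e : n = d - 1 := by omega
          rw [ra n hnd, e, Nat.sub_add_cancel hd0, Nat.sub_self, h0]
        · exact if_neg hnd
      refine ⟨r, by rw [ra 0 hd0, p.getVert_zero], ?_, ?_, ?_⟩
      · rw [rb d (by omega), Nat.add_sub_cancel_left, h1]
      · intro n
        by_cases hn : n + 1 < d
        · rw [ra n (by omega), ra (n + 1) hn]
          exact p.adj_getVert_succ (by omega)
        · rw [rb n (by omega), rb (n + 1) (by omega)]
          have e : n + 1 + 1 - d = (n + 1 - d) + 1 := by omega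
          rw [e]
          exact h2 _
      · intro n
        by_cases hn : n + 2 ≤ d
        · have hr2 : r (n + 2) = p.getVert (n + 2) := by
            by_cases hn' : n + 2 < d
            · exact ra _ hn'
            · have e : n + 2 = d := by omega
              rw [e, rb d (by omega), Nat.add_sub_cancel_left, h1, ← hp, p.getVert_length]
          rw [ra n (by omega), hr2]
          intro hcon
          have := hpath.getVert_injOn (by simp; omega) (by simp; omega) hcon
          omega
        · rw [rb n (by omega), rb (n + 2) (by omega)]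
          have e : n + 2 + 1 - d = (n + 1 - d) + 2 := by omega
          rw [e]
          exact h3 _
  obtain ⟨w, hw, hw1⟩ := treeA_exists_next hdeg (r 1) v
  obtain ⟨s, hs0, hs1, hs2, hs3⟩ := exists_ray hdeg v w hw
  obtain ⟨l, hl, hlp, hlm⟩ := exists_line_of_rays r s ⟨hr1, hr2⟩ ⟨hs2, hs3⟩ (by rw [hr0, hs0])
    (by rw [hs1]; exact hw1.symm)
  refine ⟨l, hl, ?_, ?_⟩
  · have := hlp 0
    rw [hr0] at this
    exact_mod_cast this
  · rw [hlp, hrx]

/-- Two lines sharing both tails (up to shifts) coincide up to a shift. -/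
theorem IsLine.eq_of_tails (hT : T.IsTree) {l l' : ℤ → V} (h : IsLine T l) (h' : IsLine T l')
    (c c' N : ℤ) (hp : ∀ i, N ≤ i → l' i = l (i + c)) (hm : ∀ i, i ≤ -N → l' i = l (i + c')) :
    ∀ i, l' i = l (i + c) := by
  have hc : c' = c := by
    set M : ℤ := |N| + |c| + |c'| + 1 with hM
    have b1 := le_abs_self N
    have b2 := abs_nonneg c
    have b3 := abs_nonneg c'
    have b4 := le_abs_self c
    have b5 := le_abs_self c'
    have b6 := neg_abs_le c
    have b7 := neg_abs_le c'
    have b8 := abs_nonneg N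
    have h1 := h'.dist hT (-M) M
    rw [hp M (by omega), hm (-M) (by omega), h.dist hT, abs_of_nonpos (by omega),
      abs_of_nonpos (by omega)] at h1
    omega
  intro i
  set M : ℤ := |N| + |i| with hM
  have b1 := le_abs_self N
  have b2 := le_abs_self i
  have b3 := neg_abs_le i
  have b4 := abs_nonneg N
  have p1 : l' M = l (M + c) := hp M (by omega)
  have p2 : l' (-M) = l (-M + c) := by
    have := hm (-M) (by omega)
    rwa [hc] at this
  have d1 := h'.dist hT (-M) i
  have d2 := h'.dist hT i M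
  have d3 := h'.dist hT (-M) M
  have d4 := h.dist hT (-M + c) (i + c)
  have d5 := h.dist hT (i + c) (M + c)
  have d6 := h.dist hT (-M + c) (M + c)
  rw [abs_of_nonpos (by omega)] at d1 d2 d3 d4 d5 d6
  refine eq_of_dist_eq hT (p := l' (-M)) (q := l' M) ?_ ?_ ?_
  · omega
  · rw [p1, p2]
    omega
  · rw [p2] at d1 ⊢
    omega

end Pool.MP_b4ba8e.U
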