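import Pool.Agent.Lib.MP_b4ba8e_al.Defs
import Pool.Agent.Lib.MP_b4ba8e_al.U.TreeA

/-!
# MP_b4ba8e_al, module TREEB : Cartan decomposition from double transitivity on the ends
-/

set_option autoImplicit false

namespace Pool.MP_b4ba8e.U

namespace TreeB

variable {V : Type*} {T : SimpleGraph V}

theorem IsLine.shift {l : ℤ → V} (h : IsLine T l) (c : ℤ) : IsLine T (fun i => l (i + c)) := by
  refine ⟨fun i => ?_, fun i => ?_⟩
  · have := h.1 (i + c)
    simp only
    rwa [show i + 1 + c = i + c + 1 by ring]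
  · have := h.2 (i + c)
    simp only
    rwa [show i + 2 + c = i + c + 2 by ring]

theorem IsLine.rev {l : ℤ → V} (h : IsLine T l) : IsLine T (fun i => l (-i)) := by
  refine ⟨fun i => ?_, fun i => ?_⟩
  · have := h.1 (-i - 1)
    simp only
    rw [show -(i + 1) = -i - 1 by ring]
    rw [show -i - 1 + 1 = -i by ring] at this
    exact this.symm
  · have := h.2 (-i - 2)
    simp only
    rw [show -(i + 2) = -i - 2 by ring]
    rw [show -i - 2 + 2 = -i by ring] at this
    exact this.symm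

theorem IsLine.smul {G : Type*} [Group G] [MulAction G V]
    (hadj : ∀ (g : G) (u v : V), T.Adj (g • u) (g • v) ↔ T.Adj u v) (g : G)
    {l : ℤ → V} (h : IsLine T l) : IsLine T (fun i => g • l i) := by
  refine ⟨fun i => (hadj g _ _).2 (h.1 i), fun i hi => h.2 i ?_⟩
  exact (MulAction.injective g) hi

theorem IsLine.injective (hT : T.IsTree) {l : ℤ → V} (h : IsLine T l) :
    Function.Injective l := by
  intro i j hij
  have h1 := h.dist hT i j
  rw [hij] at h1
  simp only [SimpleGraph.dist_self, Nat.cast_zero] at h1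
  have h2 := abs_eq_zero.1 h1.symm
  omega

theorem dist_smul {G : Type*} [Group G] [MulAction G V] (hT : T.IsTree)
    (hadj : ∀ (g : G) (u v : V), T.Adj (g • u) (g • v) ↔ T.Adj u v) (g : G) (u v : V) :
    T.dist (g • u) (g • v) = T.dist u v := by
  have key : ∀ (g : G) (u v : V), T.dist (g • u) (g • v) ≤ T.dist u v := by
    intro g u v
    obtain ⟨p, hp⟩ := hT.connected.exists_walk_length_eq_dist u v
    let f : T →g T := ⟨fun x => g • x, fun {a b} h => (hadj g a b).2 h⟩
    have := SimpleGraph.dist_le (p.map f)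
    rw [SimpleGraph.Walk.length_map, hp] at this
    exact this
  refine le_antisymm (key g u v) ?_
  have := key g⁻¹ (g • u) (g • v)
  simpa using this

/-- Transitivity on lines up to a shift. -/
theorem line_trans (hT : T.IsTree) {G : Type*} [Group G] [MulAction G V]
    (hadj : ∀ (g : G) (u v : V), T.Adj (g • u) (g • v) ↔ T.Adj u v)
    (h2 : ∀ r₁ r₂ s₁ s₂ : ℕ → V,
      Function.Injective r₁ → (∀ n, T.Adj (r₁ n) (r₁ (n + 1))) →
      Function.Injective r₂ → (∀ n, T.Adj (r₂ n) (r₂ (n + 1))) →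
      Function.Injective s₁ → (∀ n, T.Adj (s₁ n) (s₁ (n + 1))) →
      Function.Injective s₂ → (∀ n, T.Adj (s₂ n) (s₂ (n + 1))) →
      ¬ (∃ k m : ℕ, ∀ n, r₁ (n + k) = r₂ (n + m)) →
      ¬ (∃ k m : ℕ, ∀ n, s₁ (n + k) = s₂ (n + m)) →
      ∃ g : G, (∃ k m : ℕ, ∀ n, g • r₁ (n + k) = s₁ (n + m)) ∧
        (∃ k m : ℕ, ∀ n, g • r₂ (n + k) = s₂ (n + m)))
    {l l' : ℤ → V} (h : IsLine T l) (h' : IsLine T l') :
    ∃ (g : G) (c : ℤ), ∀ i, g • l i = l' (i + c) := by
  have hp : ∀ {l : ℤ → V}, IsLine T l → Function.Injective (fun n : ℕ => l n) ∧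
      (∀ n : ℕ, T.Adj ((fun n : ℕ => l n) n) ((fun n : ℕ => l n) (n + 1))) := by
    intro l h
    refine ⟨fun i j hij => ?_, fun n => ?_⟩
    · have := IsLine.injective hT h hij
      exact_mod_cast this
    · simp only [Nat.cast_add, Nat.cast_one]
      exact h.1 n
  have hne : ∀ {l : ℤ → V}, IsLine T l →
      ¬ (∃ k m : ℕ, ∀ n : ℕ, l ((n + k : ℕ) : ℤ) = l (-((n + m : ℕ) : ℤ))) := by
    intro l h ⟨k, m, hkm⟩
    have := IsLine.injective hT h (hkm 1)
    push_cast at this
    omega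
  obtain ⟨g, ⟨k, m, hkm⟩, ⟨k', m', hkm'⟩⟩ := h2 (fun n : ℕ => l n) (fun n : ℕ => l (-(n : ℤ)))
    (fun n : ℕ => l' n) (fun n : ℕ => l' (-(n : ℤ)))
    (hp h).1 (hp h).2 (hp (IsLine.rev h)).1 (hp (IsLine.rev h)).2
    (hp h').1 (hp h').2 (hp (IsLine.rev h')).1 (hp (IsLine.rev h')).2 (hne h) (hne h')
  refine ⟨g, (m : ℤ) - k, ?_⟩
  have hg : IsLine T (fun i => g • l i) := IsLine.smul hadj g h
  refine IsLine.eq_of_tails hT h' hg ((m : ℤ) - k) ((k' : ℤ) - m') (k + k') ?_ ?_
  · intro i hi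
    have h3 := hkm (i - k).toNat
    simp only [Nat.cast_add] at h3
    rw [Int.toNat_of_nonneg (by omega)] at h3
    rw [show i - k + k = i by ring] at h3
    rw [h3]
    congr 1
    ring
  · intro i hi
    have h3 := hkm' (-i - k').toNat
    simp only [Nat.cast_add] at h3
    rw [Int.toNat_of_nonneg (by omega)] at h3
    rw [show -(-i - (k' : ℤ) + k') = i by ring] at h3
    rw [h3]
    congr 1
    ring

/-- If `g` shifts a ray by `c > 0` then it translates a line containing it. -/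
theorem exists_axis {G : Type*} [Group G] [MulAction G V]
    (hadj : ∀ (g : G) (u v : V), T.Adj (g • u) (g • v) ↔ T.Adj u v)
    {r : ℤ → V} (h : IsLine T r) (g : G) (c : ℤ) (hc : 0 < c)
    (hg : ∀ i, 0 ≤ i → g • r i = r (i + c)) :
    ∃ l : ℤ → V, IsLine T l ∧ (∀ i, 0 ≤ i → l i = r i) ∧ ∀ i, g • l i = l (i + c) := by
  have hpow : ∀ (k : ℕ) (i : ℤ), 0 ≤ i → (g ^ k) • r i = r (i + k * c) := by
    intro k
    induction k with
    | zero => intro i _; simp
    | succ k ih =>
      intro i hi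
      rw [pow_succ, mul_smul, hg i hi, ih (i + c) (by omega)]
      congr 1
      push_cast
      ring
  have hind : ∀ (i : ℤ) (k k' : ℕ), 0 ≤ i + k * c → 0 ≤ i + k' * c →
      (g ^ k)⁻¹ • r (i + k * c) = (g ^ k')⁻¹ • r (i + k' * c) := by
    have hw : ∀ (i : ℤ) (k m : ℕ), 0 ≤ i + k * c →
        (g ^ k)⁻¹ • r (i + k * c) = (g ^ (m + k))⁻¹ • r (i + (m + k : ℕ) * c) := by
      intro i k m hk
      rw [eq_inv_smul_iff, pow_add, mul_smul, smul_inv_smul, hpow m _ hk]
      congr 1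
      push_cast
      ring
    intro i k k' hk hk'
    rcases le_total k k' with hkk | hkk
    · have := hw i k (k' - k) hk
      rwa [Nat.sub_add_cancel hkk] at this
    · have := hw i k' (k - k') hk'
      rw [Nat.sub_add_cancel hkk] at this
      exact this.symm
  -- the exponent
  have hK : ∀ (i : ℤ) (N : ℕ), -i ≤ N → 0 ≤ i + (N : ℤ) * c := by
    intro i N hN
    have h1 : (N : ℤ) ≤ N * c := by
      have : (0 : ℤ) ≤ N := by positivity
      nlinarith
    omega
  set l : ℤ → V := fun i => (g ^ (-i).toNat)⁻¹ • r (i + (-i).toNat * c) with hl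
  have hlk : ∀ (i : ℤ) (k : ℕ), -i ≤ k → l i = (g ^ k)⁻¹ • r (i + k * c) := by
    intro i k hk
    exact hind i _ _ (hK _ _ (Int.self_le_toNat _)) (hK _ _ hk)
  refine ⟨l, ⟨fun i => ?_, fun i hi => ?_⟩, ?_, ?_⟩
  · have hk : -i ≤ ((-i).toNat : ℤ) := Int.self_le_toNat _
    rw [hlk i (-i).toNat hk, hlk (i + 1) (-i).toNat (by omega), hadj]
    have := h.1 (i + (-i).toNat * c)
    rwa [show i + (-i).toNat * c + 1 = i + 1 + (-i).toNat * c by ring] at this
  · have hk : -i ≤ ((-i).toNat : ℤ) := Int.self_le_toNat _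
    rw [hlk i (-i).toNat hk, hlk (i + 2) (-i).toNat (by omega)] at hi
    have h3 := (MulAction.injective _) hi
    have := h.2 (i + (-i).toNat * c)
    rw [show i + (-i).toNat * c + 2 = i + 2 + (-i).toNat * c by ring] at this
    exact this h3
  · intro i hi
    rw [hlk i 0 (by simpa using hi)]
    simp
  · intro i
    have hk : -i ≤ ((-i).toNat : ℤ) := Int.self_le_toNat _
    rw [hlk i ((-i).toNat + 1) (by push_cast; omega), hlk (i + c) (-i).toNat (by omega),
      smul_smul, pow_succ, mul_inv_rev, mul_inv_cancel_left]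
    congr 2
    push_cast
    ring

/-- The relation same `G`-orbit of parametrised lines. -/
def Rel (G : Type*) [Group G] [MulAction G V] (l l' : ℤ → V) : Prop :=
  ∃ g : G, ∀ i, g • l i = l' i

theorem Rel.symm {G : Type*} [Group G] [MulAction G V] {l l' : ℤ → V} (h : Rel G l l') :
    Rel G l' l := by
  obtain ⟨g, hg⟩ := h
  exact ⟨g⁻¹, fun i => by rw [← hg i, inv_smul_smul]⟩

theorem Rel.trans {G : Type*} [Group G] [MulAction G V] {l l' l'' : ℤ → V} (h : Rel G l l')
    (h' : Rel G l' l'') : Rel G l l'' := by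
  obtain ⟨g, hg⟩ := h
  obtain ⟨g', hg'⟩ := h'
  exact ⟨g' * g, fun i => by rw [mul_smul, hg, hg']⟩

section

variable {G : Type*} [Group G] [MulAction G V]

theorem rel_of_pos_pos
    (hadj : ∀ (g : G) (u v : V), T.Adj (g • u) (g • v) ↔ T.Adj u v)
    (htr : ∀ {l l' : ℤ → V}, IsLine T l → IsLine T l' → ∃ (g : G) (c : ℤ), ∀ i, g • l i = l' (i + c))
    {l l' : ℤ → V} (h : IsLine T l) (h' : IsLine T l') (heq : ∀ i, 0 ≤ i → l i = l' i)
    (g : G) (c : ℤ) (hg : ∀ i, g • l i = l' (i + c)) (hc : 0 < c) : Rel G l l' := by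
  obtain ⟨a, ha, -, hga⟩ := exists_axis hadj h g c hc (by
    intro i hi
    rw [hg i, heq (i + c) (by omega)])
  obtain ⟨f, e, hf⟩ := htr h' ha
  -- `g' = f⁻¹ g f` translates `l'` by `c`
  refine ⟨(f⁻¹ * g * f)⁻¹ * g, fun i => ?_⟩
  rw [mul_smul, inv_smul_eq_iff, hg i, mul_smul, mul_smul, eq_inv_smul_iff, hf, hf, hga]
  congr 1
  ring

theorem rel_of_pos
    (hadj : ∀ (g : G) (u v : V), T.Adj (g • u) (g • v) ↔ T.Adj u v)
    (htr : ∀ {l l' : ℤ → V}, IsLine T l → IsLine T l' → ∃ (g : G) (c : ℤ), ∀ i, g • l i = l' (i + c))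
    {l l' : ℤ → V} (h : IsLine T l) (h' : IsLine T l') (heq : ∀ i, 0 ≤ i → l i = l' i) :
    Rel G l l' := by
  obtain ⟨g, c, hg⟩ := htr h h'
  rcases lt_trichotomy c 0 with hc | hc | hc
  · have hg' : ∀ i, g⁻¹ • l' i = l (i + (-c)) := by
      intro i
      rw [inv_smul_eq_iff, hg]
      congr 1
      ring
    exact (rel_of_pos_pos hadj htr h' h (fun i hi => (heq i hi).symm) g⁻¹ (-c) hg'
      (by omega)).symm
  · subst hc
    exact ⟨g, fun i => by rw [hg i, add_zero]⟩
  · exact rel_of_pos_pos hadj htr h h' heq g c hg hc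

theorem rel_of_neg
    (hadj : ∀ (g : G) (u v : V), T.Adj (g • u) (g • v) ↔ T.Adj u v)
    (htr : ∀ {l l' : ℤ → V}, IsLine T l → IsLine T l' → ∃ (g : G) (c : ℤ), ∀ i, g • l i = l' (i + c))
    {l l' : ℤ → V} (h : IsLine T l) (h' : IsLine T l') (heq : ∀ i, i ≤ 0 → l i = l' i) :
    Rel G l l' := by
  obtain ⟨g, hg⟩ := rel_of_pos hadj htr (IsLine.rev h) (IsLine.rev h')
    (fun i hi => heq (-i) (by omega))
  refine ⟨g, fun i => ?_⟩
  have := hg (-i)
  simpa using this

/-- Any two lines through the same vertex are equivalent. -/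
theorem rel_of_zero
    (hdeg : ∀ v : V, 3 ≤ (T.neighborSet v).ncard)
    (hadj : ∀ (g : G) (u v : V), T.Adj (g • u) (g • v) ↔ T.Adj u v)
    (htr : ∀ {l l' : ℤ → V}, IsLine T l → IsLine T l' → ∃ (g : G) (c : ℤ), ∀ i, g • l i = l' (i + c))
    {l l' : ℤ → V} (h : IsLine T l) (h' : IsLine T l') (h0 : l 0 = l' 0) :
    Rel G l l' := by
  -- halves
  have hpos : ∀ {l : ℤ → V}, IsLine T l → (∀ n : ℕ, T.Adj (l n) (l (n + 1 : ℕ))) ∧
      ∀ n : ℕ, l (n + 2 : ℕ) ≠ l n := by
    intro l h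
    refine ⟨fun n => ?_, fun n => ?_⟩
    · have := h.1 n
      push_cast
      exact this
    · have := h.2 n
      push_cast
      exact this
  -- the new direction
  obtain ⟨w, hw, hw1, hw2⟩ : ∃ w, T.Adj (l 0) w ∧ w ≠ l 1 ∧ w ≠ l' 1 := by
    by_contra hcon
    push Not at hcon
    have hsub : T.neighborSet (l 0) ⊆ {l 1, l' 1} := by
      intro w hw
      by_cases h1 : w = l 1
      · exact Or.inl h1
      · exact Or.inr (hcon w hw h1)
    have h1 := Set.ncard_le_ncard hsub (Set.toFinite _)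
    have h2 : ({l 1, l' 1} : Set V).ncard ≤ 2 := Set.ncard_insert_le _ _ |>.trans (by simp)
    have h3 := hdeg (l 0)
    omega
  obtain ⟨s, hs0, hs1, hs2, hs3⟩ := exists_ray hdeg (l 0) w hw
  obtain ⟨m, hm, hm1, hm2⟩ := exists_line_of_rays (T := T) (fun n : ℕ => l n) s (hpos h) ⟨hs2, hs3⟩
    (by simp [hs0]) (by simpa [hs1] using hw1.symm)
  obtain ⟨m', hm', hm1', hm2'⟩ := exists_line_of_rays (T := T) (fun n : ℕ => l' n) s (hpos h')
    ⟨hs2, hs3⟩ (by simp [hs0, h0]) (by simpa [hs1] using hw2.symm)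
  have e1 : Rel G l m := rel_of_pos hadj htr h hm (by
    intro i hi
    have := hm1 i.toNat
    rw [Int.toNat_of_nonneg hi] at this
    exact this.symm)
  have e2 : Rel G m m' := rel_of_neg hadj htr hm hm' (by
    intro i hi
    have h1 := hm2 (-i).toNat
    have h2 := hm2' (-i).toNat
    rw [Int.toNat_of_nonneg (by omega), neg_neg] at h1 h2
    rw [h1, h2])
  have e3 : Rel G m' l' := rel_of_pos hadj htr hm' h' (by
    intro i hi
    have := hm1' i.toNat
    rw [Int.toNat_of_nonneg hi] at this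
    exact this)
  exact (e1.trans e2).trans e3

end

end TreeB

open TreeB in
/-- Cartan decomposition from double transitivity on the ends. (`L g = dist v (g v) / t₀`.) -/
theorem exists_cartan {V : Type*} (T : SimpleGraph V) (hT : T.IsTree)
    (hdeg : ∀ v : V, 3 ≤ (T.neighborSet v).ncard)
    {G : Type*} [Group G] [MulAction G V]
    (hadj : ∀ (g : G) (u v : V), T.Adj (g • u) (g • v) ↔ T.Adj u v)
    (h2 : ∀ r₁ r₂ s₁ s₂ : ℕ → V,
      Function.Injective r₁ → (∀ n, T.Adj (r₁ n) (r₁ (n + 1))) →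
      Function.Injective r₂ → (∀ n, T.Adj (r₂ n) (r₂ (n + 1))) →
      Function.Injective s₁ → (∀ n, T.Adj (s₁ n) (s₁ (n + 1))) →
      Function.Injective s₂ → (∀ n, T.Adj (s₂ n) (s₂ (n + 1))) →
      ¬ (∃ k m : ℕ, ∀ n, r₁ (n + k) = r₂ (n + m)) →
      ¬ (∃ k m : ℕ, ∀ n, s₁ (n + k) = s₂ (n + m)) →
      ∃ g : G, (∃ k m : ℕ, ∀ n, g • r₁ (n + k) = s₁ (n + m)) ∧
        (∃ k m : ℕ, ∀ n, g • r₂ (n + k) = s₂ (n + m)))
    (v : V) :
    ∃ (a : G) (L : G → ℕ), Cartan (MulAction.stabilizer G v) a L := by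
  have htr : ∀ {l l' : ℤ → V}, IsLine T l → IsLine T l' →
      ∃ (g : G) (c : ℤ), ∀ i, g • l i = l' (i + c) :=
    fun h h' => line_trans hT hadj h2 h h'
  have hrel : ∀ {l l' : ℤ → V}, IsLine T l → IsLine T l' → l 0 = l' 0 → Rel G l l' :=
    fun h h' h0 => rel_of_zero hdeg hadj htr h h' h0
  obtain ⟨l, hl, hl0, -⟩ := exists_line hT hdeg v v
  -- transitivity on spheres
  have hsph : ∀ x y : V, T.dist v x = T.dist v y →
      ∃ k : G, k • v = v ∧ k • x = y := by
    intro x y hxy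
    obtain ⟨l₁, h₁, h₁0, h₁x⟩ := exists_line hT hdeg v x
    obtain ⟨l₂, h₂, h₂0, h₂y⟩ := exists_line hT hdeg v y
    obtain ⟨k, hk⟩ := hrel h₁ h₂ (by rw [h₁0, h₂0])
    refine ⟨k, ?_, ?_⟩
    · have := hk 0
      rwa [h₁0, h₂0] at this
    · have := hk (T.dist v x)
      rwa [h₁x, hxy, h₂y] at this
  have hdl : ∀ n : ℕ, T.dist v (l n) = n := by
    intro n
    have := hl.dist hT 0 n
    rw [hl0] at this
    simp only [zero_sub, abs_neg, Nat.abs_cast] at this
    exact_mod_cast this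
  -- the group of translation lengths
  let τ : AddSubgroup ℤ :=
    { carrier := {n | ∃ a : G, ∀ i, a • l i = l (i + n)}
      add_mem' := by
        rintro n m ⟨a, ha⟩ ⟨b, hb⟩
        refine ⟨b * a, fun i => ?_⟩
        rw [mul_smul, ha, hb, add_assoc]
      zero_mem' := ⟨1, fun i => by simp⟩
      neg_mem' := by
        rintro n ⟨a, ha⟩
        refine ⟨a⁻¹, fun i => ?_⟩
        rw [inv_smul_eq_iff, ha]
        congr 1
        ring }
  have hτ : ∀ g : G, (T.dist v (g • v) : ℤ) ∈ τ := by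
    intro g
    obtain ⟨k, hkv, hk⟩ := hsph (g • v) (l (T.dist v (g • v) : ℕ)) (by rw [hdl])
    obtain ⟨k', hk'⟩ := hrel (IsLine.smul hadj (k * g) hl)
      (IsLine.shift hl (T.dist v (g • v) : ℤ)) (by
        simp only [hl0, mul_smul, hk, zero_add])
    refine ⟨k' * (k * g), fun i => ?_⟩
    rw [mul_smul]
    exact hk' i
  obtain ⟨t, ht0, ht⟩ : ∃ t : ℕ, (t : ℤ) ∈ τ ∧ ∀ n ∈ τ, (t : ℤ) ∣ n := by
    obtain ⟨t, ht⟩ := Int.subgroup_cyclic τ
    refine ⟨t.natAbs, ?_, ?_⟩
    · have h1 : t ∈ τ := by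
        rw [ht]
        exact AddSubgroup.subset_closure rfl
      rcases Int.natAbs_eq t with h | h
      · rwa [← h]
      · have : (t.natAbs : ℤ) = -t := by omega
        rw [this]
        exact τ.neg_mem h1
    · intro n hn
      rw [ht, AddSubgroup.mem_closure_singleton] at hn
      obtain ⟨k, rfl⟩ := hn
      rw [Int.natAbs_dvd, zsmul_eq_mul]
      exact Dvd.intro_left _ rfl
  obtain ⟨a, ha⟩ := ht0
  have hdiv : ∀ g : G, t ∣ T.dist v (g • v) := fun g => by
    have := ht _ (hτ g)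
    exact_mod_cast this
  have hmul : ∀ g : G, t * (T.dist v (g • v) / t) = T.dist v (g • v) :=
    fun g => Nat.mul_div_cancel' (hdiv g)
  refine ⟨a, fun g => T.dist v (g • v) / t, ?_, ?_, ?_, ?_, ?_⟩
  · intro g h
    have h1 : T.dist v ((g * h) • v) ≤ T.dist v (g • v) + T.dist v (h • v) := by
      calc T.dist v ((g * h) • v) ≤ T.dist v (g • v) + T.dist (g • v) ((g * h) • v) :=
            hT.connected.dist_triangle
        _ = T.dist v (g • v) + T.dist v (h • v) := by
            rw [mul_smul, dist_smul hT hadj]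
    calc T.dist v ((g * h) • v) / t ≤ (T.dist v (g • v) + T.dist v (h • v)) / t :=
          Nat.div_le_div_right h1
      _ = T.dist v (g • v) / t + T.dist v (h • v) / t := Nat.add_div_of_dvd_right (hdiv g)
  · intro g
    have : T.dist v (g⁻¹ • v) = T.dist v (g • v) := by
      rw [← dist_smul hT hadj g, smul_inv_smul, SimpleGraph.dist_comm]
    simp only [this]
  · intro k hk
    have hk' : k • v = v := hk
    simp only [hk', SimpleGraph.dist_self, Nat.zero_div]
  · have h1 : a • v = l t := by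
      have := ha 0
      rwa [hl0, zero_add] at this
    simp only [h1, hdl]
    rcases Nat.eq_zero_or_pos t with h | h
    · simp [h]
    · rw [Nat.div_self h]
  · intro g
    have hpow : ∀ (m : ℕ) (i : ℤ), (a ^ m) • l i = l (i + m * t) := by
      intro m
      induction m with
      | zero => intro i; simp
      | succ m ih =>
        intro i
        rw [pow_succ, mul_smul, ha, ih]
        congr 1
        push_cast
        ring
    set m := T.dist v (g • v) / t with hm
    have h1 : (a ^ m) • v = l (T.dist v (g • v) : ℕ) := by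
      have h3 := hpow m 0
      rw [hl0, zero_add] at h3
      rw [h3]
      congr 1
      have h4 := hmul g
      rw [← hm] at h4
      rw [← h4]
      push_cast
      ring
    obtain ⟨k₁, hk₁, hk₁'⟩ := hsph ((a ^ m) • v) (g • v) (by rw [h1, hdl])
    refine ⟨k₁, hk₁, (k₁ * a ^ m)⁻¹ * g, ?_, ?_⟩
    · rw [MulAction.mem_stabilizer_iff, mul_smul, inv_smul_eq_iff, mul_smul, hk₁']
    · rw [mul_inv_cancel_left]

end Pool.MP_b4ba8e.U
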